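import Pool.Agent.Y101.Th.PairDefs

/-!
# Weil-étale motivic homology over a finite field: data and properties
-/

set_option autoImplicit false

open CategoryTheory AlgebraicGeometry

namespace Pool.Agent.Y116.WE

open Pool.Agent.Y116.UV Pool.Agent.Y101.Th

/-- The ring `ℤ[1/p]`, where `p` is the characteristic of `k`. -/
abbrev Zp (k : Type) [Field k] : Type := Localization.Away ((ringChar k : ℕ) : ℤ)

/-- Data: `L X i n = H^i_W(X, ℤ(n))`, the Weil-étale motivic cohomology groups of the smooth projective
schemes `X` over `k`, and `W X i n = H_i^c(X_W, ℤ[1/p](n))`, the Weil-étale motivic Borel–Moore homology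
of all schemes `X` over `k`: the homology of the fibre of `1 - φ` on the Borel–Moore homology of
`X` over the algebraic closure of `k` in étale motives with coefficients in `ℤ[1/p]`. For `X` smooth and
projective of dimension `d` it is `H^(2d-i)_W(X, ℤ[1/p](d-n))`. -/
structure WeilEtale (k : Type) [Field k] where
  L : Sch k → ℤ → ℤ → Type
  [lgrp : ∀ X i n, AddCommGroup (L X i n)]
  W : Sch k → ℤ → ℤ → Type
  [wgrp : ∀ X i n, AddCommGroup (W X i n)]
  [wmod : ∀ X i n, Module (Zp k) (W X i n)]

attribute [instance] WeilEtale.lgrp WeilEtale.wgrp WeilEtale.wmod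

variable {k : Type} [Field k]

/-- `H^i_W(X, ℤ(n))` is finitely generated for all `i` and all `n ≥ 0` -/
def Lich (T : WeilEtale k) (X : Sch k) : Prop := ∀ i n : ℤ, 0 ≤ n → AddGroup.FG (T.L X i n)

/-- `H_i^c(X_W, ℤ[1/p](n))` is a finitely generated `ℤ[1/p]`-module for all `i` and `n` -/
def WFin (T : WeilEtale k) (X : Sch k) : Prop := ∀ i n : ℤ, Module.Finite (Zp k) (T.W X i n)

/-- an exact sequence `W_i(X) → W_j(Y) → W_l(Z)` in weight `n` -/
def Ex (T : WeilEtale k) (X Y Z : Sch k) (i j l n : ℤ) : Prop :=
  ∃ (f : T.W X i n →ₗ[Zp k] T.W Y j n) (g : T.W Y j n →ₗ[Zp k] T.W Z l n), Function.Exact f g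

/-- the localization sequence of a closed subscheme `Z` of `X` with complement `U` -/
def HasSeq (T : WeilEtale k) (Z X U : Sch k) : Prop :=
  ∀ i n, Ex T Z X U i i i n ∧ Ex T X U Z i i (i - 1) n ∧ Ex T U Z X (i + 1) i i n

/-- `W_i(X)` in weight `n` is isomorphic to `W_(i+2r)(Y)` in weight `n + r`, for all `i` and `n` -/
def WIso (T : WeilEtale k) (X Y : Sch k) (r : ℤ) : Prop :=
  ∀ i n : ℤ, Nonempty (T.W X i n ≃ₗ[Zp k] T.W Y (i + 2 * r) (n + r))

/-- `W_i(X)` in weight `n` embeds into `W_(i+2r)(Y)` in weight `n + r`, for all `i` and `n` -/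
def WInj (T : WeilEtale k) (X Y : Sch k) (r : ℤ) : Prop :=
  ∀ i n : ℤ, ∃ s : T.W X i n →ₗ[Zp k] T.W Y (i + 2 * r) (n + r), Function.Injective s

/-- isomorphism invariance -/
def IsInvariant (T : WeilEtale k) : Prop :=
  ∀ {X Y : Sch k}, FT True X → Nonempty (X ≅ Y) → WIso T X Y 0

/-- localization sequences -/
def HasLocalization (T : WeilEtale k) : Prop :=
  ∀ {Z X U : Sch k} (a : Z ⟶ X) (b : U ⟶ X), FT True X → IsTriple a b → HasSeq T Z X U

/-- invariance under the affine bundle `Spec A[w]/(∑ f_l w_l - 1)` of relative dimension `m - 1` over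
the complement of `f = 0` in `Spec A` -/
def HasBundles (T : WeilEtale k) : Prop :=
  ∀ (A : Type) [CommRing A] [Algebra k A] [Algebra.FiniteType k A] (m : ℕ)
    (f : Fin m → A) (U : Sch k) (b : U ⟶ aff k A), IsOpenImmersion b.left →
    Set.range b.left = {x : PrimeSpectrum A | ∃ l, f l ∉ x.asIdeal} →
    WIso T U (aff k (Jou f)) (m - 1)

/-- the groups of `X` embed into the groups of `X × 𝔾_m` -/
def HasTori (T : WeilEtale k) : Prop :=
  ∀ (A : Type) [CommRing A] [Algebra k A] [Algebra.FiniteType k A],
    WInj T (aff k A) (aff k (LaurentPolynomial A)) 1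

/-- The groups `H^i_W(X, ℤ(n))`, `n ≥ 0`, are finitely generated for all smooth projective
`X` of dimension at most `d` if and only if the groups `H_i^c(X_W, ℤ[1/p](n))` are finitely generated
over `ℤ[1/p]` for all separated schemes of finite type of dimension at most `d`. -/
def Reduces (T : WeilEtale k) (d : ℕ) : Prop :=
  (∀ X : Sch k, SmProj X → topologicalKrullDim X.left ≤ d → Lich T X) ↔
    ∀ X : Sch k, FT True X → topologicalKrullDim X.left ≤ d → WFin T X

/-- Known properties: isomorphism invariance; localization sequences; invariance under affine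
bundles; the groups of `X` embed into the groups of `X × 𝔾_m`; finite generation for schemes of
dimension at most one (`curves`); the reduction of finite generation in dimension at most `d` to
smooth projective schemes (`alterations`: Geisser, de Jong, Gabber), and the same without bound for
the dimension (`alterations_all`). -/
structure IsWeilEtale (T : WeilEtale k) : Prop where
  iso : IsInvariant T
  localization : HasLocalization T
  bundle : HasBundles T
  torus : HasTori T
  curves : ∀ X : Sch k, FT True X → topologicalKrullDim X.left ≤ 1 → WFin T X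
  alterations : ∀ d : ℕ, Reduces T d
  alterations_all : (∀ X : Sch k, SmProj X → Lich T X) ↔ ∀ X : Sch k, FT True X → WFin T X

end Pool.Agent.Y116.WE
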