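import Pool.Agent.Y116.WE.Defs
import Pool.Agent.Y101.Th.Gen
import Pool.Agent.Y116.UV.TB

/-!
# Finite generation of Weil-étale motivic homology is closed under closed-open decompositions
-/

set_option autoImplicit false

open CategoryTheory AlgebraicGeometry MvPolynomial

namespace Pool.Agent.Y116.WE

open Pool.Agent.Y116.UV Pool.Agent.Y101.Th Pool.Agent.Z125.UN

section

variable {Λ A B C : Type} [CommRing Λ] [IsNoetherianRing Λ] [AddCommGroup A] [AddCommGroup B]
  [AddCommGroup C] [Module Λ A] [Module Λ B] [Module Λ C]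

lemma finite_of_exact (f : A →ₗ[Λ] B) (g : B →ₗ[Λ] C) (hfg : Function.Exact f g)
    (hA : Module.Finite Λ A) (hC : Module.Finite Λ C) : Module.Finite Λ B := by
  have h1 : Module.Finite Λ (LinearMap.range f) := inferInstance
  have h2 : Module.Finite Λ (LinearMap.range g) := inferInstance
  have h3 : LinearMap.ker g = LinearMap.range f := by
    ext x
    exact (hfg x)
  have h4 : Module.Finite Λ (LinearMap.ker g) := by
    rw [h3]
    exact h1
  have h5 : (⊤ : Submodule Λ B).FG := by
    apply Submodule.fg_of_fg_map_of_fg_inf_ker g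
    · rw [← LinearMap.range_eq_map]
      exact (Module.Finite.iff_fg).mp h2
    · rw [top_inf_eq]
      exact (Module.Finite.iff_fg).mp h4
  exact ⟨h5⟩

end

variable {k : Type} [Field k] {T : WeilEtale k}

instance : IsNoetherianRing (Zp k) :=
  IsLocalization.isNoetherianRing (Submonoid.powers ((ringChar k : ℕ) : ℤ)) _ inferInstance

lemma cast_finite (T : WeilEtale k) (X : Sch k) {i i' n n' : ℤ} (hi : i = i') (hn : n = n')
    (h : Module.Finite (Zp k) (T.W X i n)) : Module.Finite (Zp k) (T.W X i' n') := by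
  subst hi hn
  exact h

lemma w_tot {Z X U : Sch k} (h : HasSeq T Z X U) (hZ : WFin T Z) (hU : WFin T U) : WFin T X := by
  intro i n
  obtain ⟨f, g, hfg⟩ := (h i n).1
  exact finite_of_exact f g hfg (hZ i n) (hU i n)

lemma w_clo {Z X U : Sch k} (h : HasSeq T Z X U) (hX : WFin T X) (hU : WFin T U) : WFin T Z := by
  intro i n
  obtain ⟨f, g, hfg⟩ := (h i n).2.2
  exact finite_of_exact f g hfg (hU (i + 1) n) (hX i n)

lemma w_opn {Z X U : Sch k} (h : HasSeq T Z X U) (hZ : WFin T Z) (hX : WFin T X) : WFin T U := by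
  intro i n
  obtain ⟨f, g, hfg⟩ := (h i n).2.1
  exact finite_of_exact f g hfg (hX i n) (hZ (i - 1) n)

lemma w_of_iso {X Y : Sch k} {r : ℤ} (h : WIso T X Y r) (hX : WFin T X) : WFin T Y := by
  intro i n
  obtain ⟨s⟩ := h (i - 2 * r) (n - r)
  have := hX (i - 2 * r) (n - r)
  exact cast_finite T Y (by ring) (by ring) (Module.Finite.equiv s)

lemma w_of_iso' {X Y : Sch k} {r : ℤ} (h : WIso T X Y r) (hY : WFin T Y) : WFin T X := by
  intro i n
  obtain ⟨s⟩ := h i n
  have := hY (i + 2 * r) (n + r)
  exact Module.Finite.equiv s.symm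

lemma w_point (hT : IsWeilEtale T) : WFin T (aff k k) := by
  refine hT.curves _ (ft_aff True) ?_
  rw [topDim_aff, ringKrullDim_eq_zero_of_field]
  exact zero_le_one

lemma w_space (hT : IsWeilEtale T) (n : ℕ) : WFin T (aff k (MvPolynomial (Fin n) k)) := by
  have h := w_of_iso (hT.bundle k (n + 1) (f1 k n) (aff k k) (𝟙 _) inferInstance (range_id n))
    (w_point hT)
  exact w_of_iso (hT.iso (ft_aff True) ⟨(affIso (jouOne k n)).symm⟩) h

theorem bnd_w (hT : IsWeilEtale T) : Bnd True (WFin T) where
  iso hX e h := w_of_iso (hT.iso hX e) h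
  total i j h ht hZ hU := w_tot (hT.localization i j h ht) hZ hU
  opened i j h ht hZ hX := w_opn (hT.localization i j h ht) hZ hX
  closed i j h ht hX hU := w_clo (hT.localization i j h ht) hX hU
  space := w_space hT
  jouanolou A _ _ _ m f U j hj hr h := w_of_iso' (hT.bundle A m f U j hj hr) h
  torus A _ _ _ h := by
    intro i n
    obtain ⟨s, hs⟩ := hT.torus A i n
    have := h (i + 2 * 1) (n + 1)
    exact Module.Finite.of_injective s hs
  bundle A _ _ _ m f U j hj hr h := w_of_iso (hT.bundle A m f U j hj hr) h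

end Pool.Agent.Y116.WE
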